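import Mathlib
import Pool.Agent.X200.ShdBeta

/-!
MP_b7f2db_gt, Q1: there is (in ZFC) a Tychonoff, non-compact, selectively highly divergent space
whose Stone-Cech compactification is not selectively highly divergent.
-/

namespace Pool.Agent.Results.MP_b7f2db_gt.BetaNotSHD

open Set Topology Filter

/-- Selectively highly divergent spaces. -/
def SHD (X : Type*) [TopologicalSpace X] : Prop :=
  ∀ U : ℕ → Set X, (∀ n, IsOpen (U n) ∧ (U n).Nonempty) →
    ∃ x : ℕ → X, (∀ n, x n ∈ U n) ∧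
      ¬ ∃ (k : ℕ → ℕ) (a : X), StrictMono k ∧ Tendsto (fun m => x (k m)) atTop (𝓝 a)

theorem result : ∃ (X : Type) (_ : TopologicalSpace X), T35Space X ∧ ¬ CompactSpace X ∧ SHD X ∧
    ¬ SHD (StoneCech X) :=
  Pool.Agent.X200.ShdBeta.main

end Pool.Agent.Results.MP_b7f2db_gt.BetaNotSHD
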